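import Pool.Agent.K1H98.NR.Core

/-!
# From near relations of all the numbers to simultaneous approximations
-/

set_option autoImplicit false

namespace Pool.Agent.K1H98.NF

open Finset

/-- If all the `z j`, `j ∈ A`, outside of a small set `U` are close to rational combinations of `1` and `n - 1` numbers
`u k` with small denominators and numerators, then all the `q z_j` are close to integers for a suitable `q`. -/
lemma approx {ι : Type*} [Fintype ι] {z : ℕ → ℝ} {n s K q0 X : ℕ} (A : Finset ℕ) (hA : A.card + 2 ≤ s)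
    (hX0 : q0 ≤ X) (hXn : n + 1 ≤ X)
    (H : ∀ q ≥ q0, K ≤ Set.ncard {j : ℕ | j ∈ A ∧ ∀ p : ℤ, (q : ℝ) ^ (-(1 / (n : ℝ))) ≤ |(q : ℝ) * z j - p|})
    (u : ι → ℝ) (hι : Fintype.card ι + 1 ≤ n) (U : Finset ℕ) (hU : U.card < K)
    (hrel : ∀ j ∈ A, j ∉ U → ∃ (a : ℤ) (e0 : ℤ) (e : ι → ℤ), a ≠ 0 ∧ |a| ≤ X ∧ (∀ k, |e k| ≤ X) ∧
      |(a : ℝ) * z j + (∑ k, (e k : ℝ) * u k + e0)| < 1 / (X : ℝ) ^ (s * (n + 1) ^ 2)) : False := by
  classical
  obtain ⟨w, hw⟩ : ∃ w, w = s * (n + 1) ^ 2 := ⟨_, rfl⟩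
  rw [← hw] at hrel
  obtain ⟨B, hB⟩ : ∃ B, B = A \ U := ⟨_, rfl⟩
  have hXp : 0 < X := by omega
  have hXr : (0 : ℝ) < X := by exact_mod_cast hXp
  have hX1 : (1 : ℝ) ≤ X := by exact_mod_cast hXp
  have hrel' : ∀ j, j ∈ B → ∃ (a : ℤ) (e0 : ℤ) (e : ι → ℤ), a ≠ 0 ∧ |a| ≤ X ∧ (∀ k, |e k| ≤ X) ∧
      |(a : ℝ) * z j + (∑ k, (e k : ℝ) * u k + e0)| < 1 / (X : ℝ) ^ w := by
    intro j hj
    rw [hB, mem_sdiff] at hj
    exact hrel j hj.1 hj.2
  choose! a e0 e haj ha he hf using hrel'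
  -- the common denominator
  obtain ⟨Q, hQ⟩ : ∃ Q : ℕ, Q = ∏ j ∈ B, (a j).natAbs := ⟨_, rfl⟩
  have hQ1 : 1 ≤ Q := by
    rw [hQ]
    exact Finset.prod_pos fun j hj => Int.natAbs_pos.2 (haj j hj)
  have hBA : B.card ≤ A.card := by rw [hB]; exact card_le_card sdiff_subset
  have hnat : ∀ j ∈ B, ((a j).natAbs : ℝ) ≤ X := by
    intro j hj
    have := ha j hj
    have h2 : (((a j).natAbs : ℤ)) ≤ X := by rw [Int.natCast_natAbs]; exact this
    exact_mod_cast h2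
  have hQX : (Q : ℝ) ≤ (X : ℝ) ^ A.card := by
    rw [hQ]
    push_cast
    calc ∏ j ∈ B, ((a j).natAbs : ℝ) ≤ ∏ j ∈ B, (X : ℝ) :=
          prod_le_prod (fun _ _ => by positivity) fun j hj => hnat j hj
      _ = (X : ℝ) ^ B.card := by rw [prod_const]
      _ ≤ (X : ℝ) ^ A.card := pow_le_pow_right₀ hX1 hBA
  have hc : ∀ j ∈ B, ∃ c : ℤ, (Q : ℤ) = a j * c ∧ |(c : ℝ)| * X ≤ (X : ℝ) ^ A.card := by
    intro j hj
    have h1 : Q = (a j).natAbs * ∏ i ∈ B.erase j, (a i).natAbs := by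
      rw [hQ]
      exact (Finset.mul_prod_erase B (fun i => (a i).natAbs) hj).symm
    refine ⟨(a j).sign * ((∏ i ∈ B.erase j, (a i).natAbs : ℕ) : ℤ), ?_, ?_⟩
    · rw [h1]
      push_cast [Int.natCast_natAbs]
      rw [← mul_assoc, Int.mul_sign_self, Int.natCast_natAbs]
    · have h2 : |(((a j).sign * ((∏ i ∈ B.erase j, (a i).natAbs : ℕ) : ℤ) : ℤ) : ℝ)| ≤
          ∏ i ∈ B.erase j, ((a i).natAbs : ℝ) := by
        rw [Int.cast_mul, abs_mul]
        have h3 : |(((a j).sign : ℤ) : ℝ)| ≤ 1 := by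
          rw [← Int.cast_abs]
          exact_mod_cast (by rcases Int.sign_trichotomy (a j) with h | h | h <;> simp [h])
        have h4 : |(((∏ i ∈ B.erase j, (a i).natAbs : ℕ) : ℤ) : ℝ)| = ∏ i ∈ B.erase j, ((a i).natAbs : ℝ) := by
          rw [abs_of_nonneg (by positivity), Int.cast_natCast, Nat.cast_prod]
        rw [h4]
        have h5 : (0 : ℝ) ≤ ∏ i ∈ B.erase j, ((a i).natAbs : ℝ) := prod_nonneg fun _ _ => by positivity
        nlinarith
      have h3 : ∏ i ∈ B.erase j, ((a i).natAbs : ℝ) ≤ (X : ℝ) ^ (B.card - 1) := by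
        calc ∏ i ∈ B.erase j, ((a i).natAbs : ℝ) ≤ ∏ i ∈ B.erase j, (X : ℝ) :=
              prod_le_prod (fun _ _ => by positivity) fun i hi => hnat i (mem_of_mem_erase hi)
          _ = (X : ℝ) ^ (B.card - 1) := by rw [prod_const, card_erase_of_mem hj]
      calc |(((a j).sign * ((∏ i ∈ B.erase j, (a i).natAbs : ℕ) : ℤ) : ℤ) : ℝ)| * X
          ≤ (X : ℝ) ^ (B.card - 1) * X := mul_le_mul_of_nonneg_right (h2.trans h3) hXr.le
        _ = (X : ℝ) ^ B.card := by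
            rw [← pow_succ]
            congr 1
            have : 0 < B.card := card_pos.2 ⟨j, hj⟩
            omega
        _ ≤ (X : ℝ) ^ A.card := pow_le_pow_right₀ hX1 hBA
  -- Dirichlet's theorem
  obtain ⟨y, hy⟩ : ∃ y, y = (A.card + 2) * (n + 1) := ⟨_, rfl⟩
  have hY1 : 1 ≤ X ^ y := Nat.one_le_pow _ _ hXp
  let ev := Fintype.equivFin ι
  obtain ⟨r, hr1, hr2, hr⟩ := Pool.Agent.R355.dirichlet (fun i => u (ev.symm i)) hY1
  choose W hW using hr
  have hWJ : ∀ i : ι, |(r : ℝ) * u i - W (ev i)| ≤ 1 / (X : ℝ) ^ y := by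
    intro i
    have := (hW (ev i)).le
    rw [Equiv.symm_apply_apply] at this
    push_cast at this
    exact this
  have hr2' : (r : ℝ) ≤ ((X : ℝ) ^ y) ^ (n - 1) := by
    calc (r : ℝ) ≤ ((X ^ y : ℕ) : ℝ) ^ Fintype.card ι := by exact_mod_cast hr2
      _ ≤ ((X ^ y : ℕ) : ℝ) ^ (n - 1) := pow_le_pow_right₀ (by exact_mod_cast hY1) (by omega)
      _ = ((X : ℝ) ^ y) ^ (n - 1) := by push_cast; rfl
  obtain ⟨q, hq⟩ : ∃ q : ℕ, q = Q * r * X := ⟨_, rfl⟩
  have hqX : X ≤ q := by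
    rw [hq]
    have : 1 * 1 * X ≤ Q * r * X := Nat.mul_le_mul_right X (Nat.mul_le_mul hQ1 hr1)
    omega
  have hqle : (q : ℝ) ≤ (X : ℝ) ^ (A.card + 1) * ((X : ℝ) ^ y) ^ (n - 1) := by
    rw [hq]
    push_cast
    calc (Q : ℝ) * r * X ≤ (X : ℝ) ^ A.card * ((X : ℝ) ^ y) ^ (n - 1) * X := by
          apply mul_le_mul_of_nonneg_right _ hXr.le
          exact mul_le_mul hQX hr2' (by positivity) (by positivity)
      _ = _ := by ring
  -- all the numbers are close to fractions with denominator `q`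
  have happ : ∀ j ∈ B, ∃ p : ℤ, |(q : ℝ) * z j - p| < (q : ℝ) ^ (-(1 / (n : ℝ))) := by
    intro j hj
    obtain ⟨c, hc1, hc2⟩ := hc j hj
    refine ⟨-(c * X * (∑ i, e j i * W (ev i) + r * e0 j)), ?_⟩
    have e1 : (q : ℝ) * z j - ((-(c * X * (∑ i, e j i * W (ev i) + r * e0 j)) : ℤ) : ℝ) =
        r * (c * X) * ((a j : ℝ) * z j + (∑ i, (e j i : ℝ) * u i + e0 j)) -
          c * X * (∑ i, (e j i : ℝ) * (r * u i - W (ev i))) := by
      have e2 : (q : ℝ) = (a j * c) * r * X := by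
        rw [hq]
        push_cast
        have : (Q : ℝ) = ((Q : ℤ) : ℝ) := by push_cast; rfl
        rw [this, hc1]
        push_cast
        ring
      have e4 : ∑ l, (e j l : ℝ) * (r * u l - W (ev l)) =
          r * ∑ l, (e j l : ℝ) * u l - ∑ l, (e j l : ℝ) * W (ev l) := by
        rw [mul_sum, ← sum_sub_distrib]
        exact sum_congr rfl fun i _ => by ring
      rw [e2, e4]
      push_cast
      ring
    rw [e1]
    have hcX : |(c : ℝ) * X| ≤ (X : ℝ) ^ A.card := by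
      rw [abs_mul, abs_of_pos hXr]
      exact hc2
    have b1 : |(r : ℝ) * (c * X) * ((a j : ℝ) * z j + (∑ i, (e j i : ℝ) * u i + e0 j))| ≤
        (X : ℝ) ^ (A.card + 1) / (X : ℝ) ^ y := by
      rw [abs_mul, abs_mul, abs_of_nonneg (by positivity : (0 : ℝ) ≤ r)]
      calc (r : ℝ) * |(c : ℝ) * X| * |(a j : ℝ) * z j + (∑ i, (e j i : ℝ) * u i + e0 j)|
          ≤ (((X : ℝ) ^ y) ^ (n - 1) * (X : ℝ) ^ A.card) * (1 / (X : ℝ) ^ w) := by
            apply mul_le_mul _ (hf j hj).le (abs_nonneg _) (by positivity)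
            exact mul_le_mul hr2' hcX (abs_nonneg _) (by positivity)
        _ ≤ (X : ℝ) ^ (A.card + 1) / (X : ℝ) ^ y := by
            rw [mul_one_div, div_le_div_iff₀ (by positivity) (by positivity), ← pow_mul, ← pow_add, ← pow_add, ← pow_add]
            apply pow_le_pow_right₀ hX1
            obtain ⟨m, rfl⟩ : ∃ m, n = m + 1 := ⟨n - 1, by omega⟩
            rw [hy, hw]
            have : m + 1 - 1 = m := rfl
            rw [this]
            nlinarith [Nat.mul_le_mul_right ((m + 2) * (m + 2)) hA]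
    have b2 : |(c : ℝ) * X * (∑ i, (e j i : ℝ) * (r * u i - W (ev i)))| ≤
        ((n : ℝ) - 1) * ((X : ℝ) ^ (A.card + 1) / (X : ℝ) ^ y) := by
      have d1 : |∑ i, (e j i : ℝ) * (r * u i - W (ev i))| ≤ Fintype.card ι * (X / (X : ℝ) ^ y) := by
        calc |∑ i, (e j i : ℝ) * (r * u i - W (ev i))|
            ≤ ∑ i, |(e j i : ℝ) * (r * u i - W (ev i))| := abs_sum_le_sum_abs _ _
          _ ≤ ∑ i : ι, (X / (X : ℝ) ^ y) := by
              apply sum_le_sum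
              intro i _
              rw [abs_mul, div_eq_mul_one_div]
              apply mul_le_mul _ (hWJ i) (abs_nonneg _) hXr.le
              rw [← Int.cast_abs]
              exact_mod_cast he j hj i
          _ = Fintype.card ι * (X / (X : ℝ) ^ y) := by simp
      have hJv : (Fintype.card ι : ℝ) ≤ (n : ℝ) - 1 := by
        have : ((Fintype.card ι + 1 : ℕ) : ℝ) ≤ n := by exact_mod_cast hι
        push_cast at this
        linarith
      rw [abs_mul]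
      calc |(c : ℝ) * X| * |∑ i, (e j i : ℝ) * (r * u i - W (ev i))|
          ≤ (X : ℝ) ^ A.card * (((n : ℝ) - 1) * (X / (X : ℝ) ^ y)) := by
            apply mul_le_mul hcX _ (abs_nonneg _) (by positivity)
            refine d1.trans ?_
            have hp : (0 : ℝ) ≤ X / (X : ℝ) ^ y := by positivity
            nlinarith
        _ = _ := by ring
    refine Pool.Agent.K1H98.NR.size (n := n) (X := X) (M := A.card) (q := q) (by omega) hXn (abs_nonneg _) ?_ (by omega)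
      (by rw [← hy]; exact hqle)
    rw [← hy]
    refine (abs_sub _ _).trans ?_
    calc _ ≤ (X : ℝ) ^ (A.card + 1) / (X : ℝ) ^ y + ((n : ℝ) - 1) * ((X : ℝ) ^ (A.card + 1) / (X : ℝ) ^ y) :=
          add_le_add b1 b2
      _ = _ := by ring
  -- contradiction
  have h1 := H q (by omega)
  have h2 : {j : ℕ | j ∈ A ∧ ∀ p : ℤ, (q : ℝ) ^ (-(1 / (n : ℝ))) ≤ |(q : ℝ) * z j - p|} ⊆ ((U : Finset ℕ) : Set ℕ) := by
    rintro j ⟨g1, g2⟩
    by_contra hj
    have hjB : j ∈ B := by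
      rw [hB, mem_sdiff]
      exact ⟨g1, fun h => hj (by exact_mod_cast h)⟩
    obtain ⟨p, hp⟩ := happ j hjB
    exact absurd hp (not_lt.2 (g2 p))
  have h3 := Set.ncard_le_ncard h2 U.finite_toSet
  rw [Set.ncard_coe_finset] at h3
  omega

/-- version with a number `u k0 = 1` -/
lemma approx' {ι : Type*} [Fintype ι] [DecidableEq ι] {z : ℕ → ℝ} {n s K q0 X : ℕ} (A : Finset ℕ) (hA : A.card + 2 ≤ s)
    (hX0 : q0 ≤ X) (hXn : n + 1 ≤ X)
    (H : ∀ q ≥ q0, K ≤ Set.ncard {j : ℕ | j ∈ A ∧ ∀ p : ℤ, (q : ℝ) ^ (-(1 / (n : ℝ))) ≤ |(q : ℝ) * z j - p|})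
    (u : ι → ℝ) (k0 : ι) (hk0 : u k0 = 1) (hι : Fintype.card ι ≤ n) (U : Finset ℕ) (hU : U.card < K)
    (hrel : ∀ j ∈ A, j ∉ U → ∃ (a : ℤ) (e : ι → ℤ), a ≠ 0 ∧ |a| ≤ X ∧ (∀ k, |e k| ≤ X) ∧
      |(a : ℝ) * z j + ∑ k, (e k : ℝ) * u k| < 1 / (X : ℝ) ^ (s * (n + 1) ^ 2)) : False := by
  refine approx (ι := {k : ι // k ≠ k0}) A hA hX0 hXn H (fun k => u k) ?_ U hU ?_
  · rw [Fintype.card_subtype_compl, Fintype.card_subtype_eq]
    have : 0 < Fintype.card ι := Fintype.card_pos_iff.2 ⟨k0⟩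
    omega
  · intro j hj hjU
    obtain ⟨a, e, h1, h2, h3, h4⟩ := hrel j hj hjU
    refine ⟨a, e k0, fun k => e k, h1, h2, fun k => h3 k, ?_⟩
    have e1 : ∑ k : {k : ι // k ≠ k0}, (e k : ℝ) * u k + (e k0 : ℝ) = ∑ k, (e k : ℝ) * u k := by
      have h5 := Fintype.sum_subtype_add_sum_subtype (fun k => k ≠ k0) (fun k => (e k : ℝ) * u k)
      rw [← h5]
      congr 1
      have : ∑ k : {k : ι // ¬ k ≠ k0}, (e k : ℝ) * u k = (e k0 : ℝ) * u k0 := by
        have hu : Unique {k : ι // ¬ k ≠ k0} := ⟨⟨⟨k0, by simp⟩⟩, fun x => Subtype.ext (not_not.1 x.2)⟩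
        rw [Fintype.sum_unique]
        have hd : ((default : {k : ι // ¬ k ≠ k0}) : ι) = k0 := not_not.1 (default : {k : ι // ¬ k ≠ k0}).2
        rw [hd]
      rw [this, hk0, mul_one]
    rw [e1]
    exact h4

end Pool.Agent.K1H98.NF
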