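import Pool.Agent.K1H98.NF.Step
import Pool.Agent.K1H98.NR.Main
import Pool.Agent.K1H63.NF.CO
import Pool.Agent.K1H86.NF.Aue
import Pool.Agent.K1H90.NF.ZI

/-!
# Odd zeta values without near linear relations over number fields, at every scale
-/

set_option autoImplicit false

namespace Pool.Agent.K1H98.NF

open Finset Module

theorem coord : S_COORD := Pool.Agent.K1H63.NF.t_CO Pool.Agent.K1H98.NF.t_AUE Pool.Agent.K1H90.NF.t_ZERO

theorem main (b K s S v d : ℕ) (hK : 1 ≤ K) (hS : 1 ≤ S)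
    (hs1 : (2 : ℝ) ^ (66 * (d * (v + S))) * ((b : ℝ) + 1) * ((K : ℝ) * S) * Real.log ((K : ℝ) * S + 1) ≤ (s : ℝ))
    (hs2 : (2 : ℝ) ^ (132 * (d * (v + S))) * ((b : ℝ) + 1) * ((K : ℝ) * S) ^ 3 * Real.log ((K : ℝ) * S + 1) ≤
      (s : ℝ) ^ 2) :
    ∃ X0 : ℕ, ∀ X ≥ X0, ∀ F : IntermediateField ℚ ℝ, FiniteDimensional ℚ F → finrank ℚ F ≤ d → ∀ t : Fin v → ℝ,
      ∃ J : Fin K → Finset ℕ, (∀ i i', i ≠ i' → Disjoint (J i) (J i')) ∧
      ∀ i, (J i).card = S ∧ (∀ j ∈ J i, b < j ∧ j ≤ s ∧ Odd j) ∧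
        ∀ (a : ℕ → F) (e : Fin v → F) (e0 : F), (∀ j, Small (X : ℝ) (a j)) → (∀ l, Small (X : ℝ) (e l)) →
          Small (X : ℝ) e0 → (∃ j ∈ J i, a j ≠ 0) →
          1 / (X : ℝ) ^ (2 * s * (d * (v + S) + 1) ^ 4) ≤
            |∑ j ∈ J i, (a j : ℝ) * (∑' n : ℕ, 1 / ((n : ℝ) + 1) ^ j) + ∑ l, (e l : ℝ) * t l + e0| := by
  classical
  rcases Nat.eq_zero_or_pos d with rfl | hd
  · exact ⟨0, fun X _ F hF hd => absurd hd (by have := finrank_pos (R := ℚ) (M := F); omega)⟩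
  have hKS : 1 ≤ K * S := Nat.mul_pos hK hS
  have hn1 : 1 ≤ d * (v + S) := Nat.mul_pos hd (by omega)
  obtain ⟨q0, hq0⟩ := (Pool.Agent.K1H76.MW.main b (K * S) s (d * (v + S)) hKS hn1 (by push_cast; exact_mod_cast hs1)
    (by push_cast; exact_mod_cast hs2)).2
  -- `s` is large
  have hs6 : 6 ≤ s := by
    have h1 : (1 : ℝ) ≤ (K : ℝ) * S := by exact_mod_cast hKS
    have h2 : (1 / 2 : ℝ) ≤ Real.log ((K : ℝ) * S + 1) := by
      have : Real.log 2 ≤ Real.log ((K : ℝ) * S + 1) := Real.log_le_log (by norm_num) (by linarith)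
      have := Real.log_two_gt_d9
      linarith
    have h3 : (2 : ℝ) ^ 66 ≤ (2 : ℝ) ^ (66 * (d * (v + S))) := pow_le_pow_right₀ (by norm_num) (by omega)
    have h4 : (1 : ℝ) ≤ (b : ℝ) + 1 := by
      have : (0 : ℝ) ≤ b := by positivity
      linarith
    have h5 : (2 : ℝ) ^ 66 * 1 * 1 * (1 / 2) ≤
        (2 : ℝ) ^ (66 * (d * (v + S))) * ((b : ℝ) + 1) * ((K : ℝ) * S) * Real.log ((K : ℝ) * S + 1) := by
      gcongr
    have h6 : (6 : ℝ) ≤ s := by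
      refine le_trans ?_ (h5.trans hs1)
      norm_num
    exact_mod_cast h6
  obtain ⟨A, hA⟩ : ∃ A : Finset ℕ, A = (range (s + 1)).filter fun j => b < j ∧ Odd j := ⟨_, rfl⟩
  have hAc : A.card + 2 ≤ s := by
    have := Pool.Agent.K1H98.NR.card_odd b s
    rw [← hA] at this
    omega
  refine ⟨max q0 (d * (v + S) + 1), fun X hX F hF hFd t => ?_⟩
  have hX0 : q0 ≤ X := le_trans (le_max_left _ _) hX
  have hX1 : d * (v + S) + 1 ≤ X := le_trans (le_max_right _ _) hX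
  have hNF : NumberField F := { to_charZero := inferInstance, to_finiteDimensional := hF }
  have H : ∀ q ≥ q0, K * S ≤ Set.ncard {j : ℕ | j ∈ A ∧ ∀ p : ℤ, (q : ℝ) ^ (-(1 / ((d * (v + S) : ℕ) : ℝ))) ≤
      |(q : ℝ) * (∑' n : ℕ, 1 / ((n : ℝ) + 1) ^ j) - p|} := by
    intro q hq
    refine (hq0 q hq).trans (Set.ncard_le_ncard ?_ ?_)
    · rintro j ⟨g1, g2, g3, g4⟩
      refine ⟨?_, g4⟩
      rw [hA, mem_filter, mem_range]
      exact ⟨by omega, g1, g3⟩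
    · exact A.finite_toSet.subset fun j hj => hj.1
  obtain ⟨J, hJd, hJ⟩ := Pool.Agent.K1H98.NR.many (A := A) (K := K) (S := S)
    (P := GoodF (algebraMap F ℝ) (fun j => ∑' n : ℕ, 1 / ((n : ℝ) + 1) ^ j) t X (2 * s * (d * (v + S) + 1) ^ 4))
    (goodF_empty _ _ _ _ _)
    (fun J U _ hJ hJS hU => stepF coord Pool.Agent.K1H90.NF.t_INV (algebraMap F ℝ) hFd A hAc hs6 t hX0 hX1 rfl H J hJS
      hJ U hU)
  refine ⟨J, hJd, fun i => ⟨(hJ i).2.1, fun j hj => ?_, (hJ i).2.2⟩⟩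
  have := (hJ i).1 hj
  rw [hA, mem_filter, mem_range] at this
  exact ⟨this.2.1, by omega, this.2.2⟩

end Pool.Agent.K1H98.NF
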