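import Mathlib

/-!
# Interface: coordinates of small algebraic integers (Mathlib only)
-/

set_option autoImplicit false

namespace Pool.Agent.K1H98.NF

open Module

/-- `x` is an algebraic integer of `F` all of whose conjugates have absolute value at most `H` -/
def Small {F : Type} [Field F] (H : ℝ) (x : F) : Prop :=
  IsIntegral ℤ x ∧ ∀ σ : F →+* ℂ, ‖σ x‖ ≤ H

/-- **AUE.** Among finitely many vectors `β i` and a nonzero vector `e` there is a basis `e, β (f 0), …, β (f (m-1))` of
their span, such that the coordinates of all the `β i` at the `β (f k)` have absolute value at most `1`. -/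
def S_AUE : Prop :=
  ∀ (V : Type) [AddCommGroup V] [Module ℚ V] (ι : Type) [Finite ι] (e : V) (_ : e ≠ 0) (β : ι → V),
    ∃ (m : ℕ) (f : Fin m → ι), LinearIndependent ℚ (Fin.cons e (fun k => β (f k)) : Fin (m + 1) → V) ∧
      ∀ i, ∃ (r0 : ℚ) (r : Fin m → ℚ), β i = r0 • e + ∑ k, r k • β (f k) ∧ ∀ k, |r k| ≤ 1

/-- **ZERO.** An algebraic integer all of whose conjugates have absolute value less than `1` is zero. -/
def S_ZERO : Prop :=
  ∀ (F : Type) [Field F] [NumberField F] (x : F), IsIntegral ℤ x → (∀ σ : F →+* ℂ, ‖σ x‖ < 1) → x = 0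

/-- **INV.** The norm divided by a small algebraic integer. -/
def S_INV : Prop :=
  ∀ (F : Type) [Field F] [NumberField F] (d : ℕ), finrank ℚ F ≤ d → ∀ (H : ℝ), 1 ≤ H → ∀ x : F, x ≠ 0 → Small H x →
    ∃ (c : F) (N : ℤ), N ≠ 0 ∧ c * x = N ∧ |(N : ℝ)| ≤ H ^ d ∧ Small (H ^ d) c

/-- **COORD.** A finite family of small algebraic integers has a subfamily which, together with `1`, is a basis of the
span and with respect to which all the coordinates have small denominators and numerators. -/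
def S_COORD : Prop :=
  ∀ (F : Type) [Field F] [NumberField F] (d : ℕ), finrank ℚ F ≤ d → ∀ (ι : Type) [Finite ι] (β : ι → F) (H : ℝ), 1 ≤ H →
    (∀ i, Small H (β i)) → ∃ (m : ℕ) (f : Fin m → ι), m + 1 ≤ d ∧
      ∀ i, ∃ (q : ℕ) (p0 : ℤ) (p : Fin m → ℤ), 1 ≤ q ∧ (q : ℝ) ≤ (d * H + 1) ^ d ∧ (∀ k, |(p k : ℝ)| ≤ q) ∧
        |(p0 : ℝ)| ≤ d * H * q ∧ (q : F) * β i = p0 + ∑ k, (p k : F) * β (f k)

/-- **COORD follows** from AUE and ZERO (and Dirichlet's theorem `Pool.Agent.R355.dirichlet`). -/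
def S_CO : Prop := S_AUE → S_ZERO → S_COORD

end Pool.Agent.K1H98.NF
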