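import Pool.Agent.K1H98.NF.Approx
import Pool.Agent.K1H98.NF.Stm

/-!
# The greedy step over a number field
-/

set_option autoImplicit false

namespace Pool.Agent.K1H98.NF

open Finset Module

lemma Small.mul {F : Type} [Field F] {H H' : ℝ} {x y : F} (hH : 0 ≤ H) (hx : Small H x) (hy : Small H' y) :
    Small (H * H') (x * y) :=
  ⟨hx.1.mul hy.1, fun σ => by
    rw [map_mul, norm_mul]
    exact mul_le_mul (hx.2 σ) (hy.2 σ) (norm_nonneg _) hH⟩

/-- no near relation with coefficients in `F` of size at most `X` -/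
def GoodF {F : Type} [Field F] (ρ : F →+* ℝ) (z : ℕ → ℝ) {v : ℕ} (t : Fin v → ℝ) (X w : ℕ) (J : Finset ℕ) : Prop :=
  ∀ (a : ℕ → F) (e : Fin v → F) (e0 : F), (∀ j, Small (X : ℝ) (a j)) → (∀ l, Small (X : ℝ) (e l)) →
    Small (X : ℝ) e0 → (∃ j ∈ J, a j ≠ 0) →
      1 / (X : ℝ) ^ w ≤ |∑ j ∈ J, ρ (a j) * z j + ∑ l, ρ (e l) * t l + ρ e0|

lemma goodF_empty {F : Type} [Field F] (ρ : F →+* ℝ) (z : ℕ → ℝ) {v : ℕ} (t : Fin v → ℝ) (X w : ℕ) :
    GoodF ρ z t X w ∅ := by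
  intro a e e0 _ _ _ h
  simp at h

lemma expo {d n s : ℕ} (hdn : d ≤ n) (hn : 1 ≤ n) (hs : 6 ≤ s) :
    (d + 2) * (n + 1) + (d + 2) * (n + 1) * (s * (n + 1) ^ 2) ≤ 2 * s * (n + 1) ^ 4 := by
  obtain ⟨m, rfl⟩ : ∃ m, n = m + 1 := ⟨n - 1, by omega⟩
  obtain ⟨r, rfl⟩ : ∃ r, s = r + 6 := ⟨s - 6, by omega⟩
  have h1 : (d + 2) * (m + 1 + 1) + (d + 2) * (m + 1 + 1) * ((r + 6) * (m + 1 + 1) ^ 2) ≤
      (m + 3) * (m + 1 + 1) + (m + 3) * (m + 1 + 1) * ((r + 6) * (m + 1 + 1) ^ 2) := by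
    have : d + 2 ≤ m + 3 := by omega
    gcongr
  refine h1.trans ?_
  nlinarith [Nat.zero_le (r * m), Nat.zero_le (r * m ^ 2), Nat.zero_le (r * m ^ 3), Nat.zero_le (r * m ^ 4),
    Nat.zero_le (m ^ 2), Nat.zero_le (m ^ 3), Nat.zero_le (m ^ 4)]

/-- **The greedy step.** -/
lemma stepF (hC : S_COORD) (hI : S_INV) {F : Type} [Field F] [NumberField F] (ρ : F →+* ℝ) {z : ℕ → ℝ}
    {v d n s S K q0 X : ℕ} (hd : finrank ℚ F ≤ d) (A : Finset ℕ) (hA : A.card + 2 ≤ s) (hs6 : 6 ≤ s) (t : Fin v → ℝ)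
    (hX0 : q0 ≤ X) (hXn : n + 1 ≤ X) (hn : n = d * (v + S))
    (H : ∀ q ≥ q0, K ≤ Set.ncard {j : ℕ | j ∈ A ∧ ∀ p : ℤ, (q : ℝ) ^ (-(1 / (n : ℝ))) ≤ |(q : ℝ) * z j - p|})
    (J : Finset ℕ) (hJS : J.card < S) (hJ : GoodF ρ z t X (2 * s * (n + 1) ^ 4) J) (U : Finset ℕ)
    (hU : (U ∪ J).card < K) :
    ∃ j ∈ A, j ∉ U ∧ j ∉ J ∧ GoodF ρ z t X (2 * s * (n + 1) ^ 4) (insert j J) := by
  classical
  obtain ⟨w, hw⟩ : ∃ w, w = 2 * s * (n + 1) ^ 4 := ⟨_, rfl⟩
  rw [← hw] at hJ ⊢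
  by_contra hcon
  push Not at hcon
  have hd1 : 1 ≤ d := le_trans (Nat.one_le_iff_ne_zero.2 finrank_pos.ne') hd
  have hdn : d ≤ n := by
    rw [hn]
    exact Nat.le_mul_of_pos_right d (by omega)
  have hXp : 0 < X := by omega
  have hXr : (0 : ℝ) < X := by exact_mod_cast hXp
  have hX1 : (1 : ℝ) ≤ X := by exact_mod_cast hXp
  obtain ⟨B, hB⟩ : ∃ B, B = A \ (U ∪ J) := ⟨_, rfl⟩
  have hrel : ∀ j, j ∈ B → ∃ (a : ℕ → F) (e : Fin v → F) (e0 : F), (∀ i, Small (X : ℝ) (a i)) ∧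
      (∀ l, Small (X : ℝ) (e l)) ∧ Small (X : ℝ) e0 ∧ a j ≠ 0 ∧
      |ρ (a j) * z j + (∑ i ∈ J, ρ (a i) * z i + ∑ l, ρ (e l) * t l + ρ e0)| < 1 / (X : ℝ) ^ w := by
    intro j hj
    rw [hB, mem_sdiff, mem_union, not_or] at hj
    have h1 := hcon j hj.1 hj.2.1 hj.2.2
    unfold GoodF at h1
    push Not at h1
    obtain ⟨a, e, e0, ha, he, he0, ⟨i, hi, hai⟩, hf⟩ := h1
    rw [sum_insert hj.2.2] at hf
    have hf' : |ρ (a j) * z j + (∑ i ∈ J, ρ (a i) * z i + ∑ l, ρ (e l) * t l + ρ e0)| < 1 / (X : ℝ) ^ w := by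
      rw [show ρ (a j) * z j + (∑ i ∈ J, ρ (a i) * z i + ∑ l, ρ (e l) * t l + ρ e0) =
        ρ (a j) * z j + ∑ i ∈ J, ρ (a i) * z i + ∑ l, ρ (e l) * t l + ρ e0 from by ring]
      exact hf
    refine ⟨a, e, e0, ha, he, he0, fun h0 => ?_, hf'⟩
    have hiJ : i ∈ J := by
      rcases mem_insert.1 hi with rfl | h
      · exact absurd h0 hai
      · exact h
    have h2 := hJ a e e0 ha he he0 ⟨i, hiJ, hai⟩
    rw [h0, map_zero, zero_mul, zero_add] at hf'
    exact absurd hf' (not_lt.2 h2)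
  choose! a e e0 ha he he0 haj hf using hrel
  have hinv : ∀ j, j ∈ B → ∃ (c : F) (N : ℤ), N ≠ 0 ∧ c * a j j = N ∧ |(N : ℝ)| ≤ (X : ℝ) ^ d ∧ Small ((X : ℝ) ^ d) c :=
    fun j hj => hI F d hd X hX1 (a j j) (haj j hj) (ha j hj j)
  choose! c N hN hcN hNb hcs using hinv
  -- the coefficients
  let g : ℕ → Option (J ⊕ Fin v) → F := fun j o => c j * (match o with
    | none => e0 j
    | some (Sum.inl i) => a j i
    | some (Sum.inr l) => e j l)
  have hg : ∀ j ∈ B, ∀ o, Small ((X : ℝ) ^ (d + 1)) (g j o) := by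
    intro j hj o
    rw [pow_succ]
    rcases o with _ | i | l
    · exact (hcs j hj).mul (by positivity) (he0 j hj)
    · exact (hcs j hj).mul (by positivity) (ha j hj i)
    · exact (hcs j hj).mul (by positivity) (he j hj l)
  obtain ⟨m, f, hm, hco⟩ := hC F d hd (B × Option (J ⊕ Fin v)) (fun x => g x.1 x.2) ((X : ℝ) ^ (d + 1))
    (one_le_pow₀ hX1) (fun x => hg x.1 x.1.2 x.2)
  choose q p0 p hq1 hqb hpb hp0b hqe using hco
  let y : Option (J ⊕ Fin v) → ℝ := fun o => match o with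
    | none => 1
    | some (Sum.inl i) => z i
    | some (Sum.inr l) => t l
  let ω : Option (Fin m) → F := fun k => match k with
    | none => 1
    | some k => g (f k).1 (f k).2
  let u : Option (Fin m) × Option (J ⊕ Fin v) → ℝ := fun x => ρ (ω x.1) * y x.2
  have hO : Fintype.card (Option (J ⊕ Fin v)) ≤ v + S := by
    rw [Fintype.card_option, Fintype.card_sum, Fintype.card_coe, Fintype.card_fin]
    omega
  have hcard : Fintype.card (Option (Fin m) × Option (J ⊕ Fin v)) ≤ n := by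
    rw [Fintype.card_prod, hn, Fintype.card_option (α := Fin m), Fintype.card_fin]
    exact Nat.mul_le_mul hm hO
  -- sizes
  have hXd : (d : ℝ) + 1 ≤ X := by
    have : d + 1 ≤ X := by omega
    exact_mod_cast this
  have hdH : (d : ℝ) * (X : ℝ) ^ (d + 1) + 1 ≤ (X : ℝ) ^ (d + 2) := by
    have h1 : (1 : ℝ) ≤ (X : ℝ) ^ (d + 1) := one_le_pow₀ hX1
    have h2 : (X : ℝ) ^ (d + 2) = X * (X : ℝ) ^ (d + 1) := by ring
    rw [h2]
    nlinarith
  have hdH1 : (1 : ℝ) ≤ (d : ℝ) * (X : ℝ) ^ (d + 1) := by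
    have h1 : (1 : ℝ) ≤ (X : ℝ) ^ (d + 1) := one_le_pow₀ hX1
    have h2 : (1 : ℝ) ≤ d := by exact_mod_cast hd1
    nlinarith
  have hqX : ∀ x, (q x : ℝ) ≤ (X : ℝ) ^ ((d + 2) * d) := by
    intro x
    refine (hqb x).trans ?_
    rw [pow_mul]
    exact pow_le_pow_left₀ (by positivity) hdH d
  refine approx' (X := X ^ ((d + 2) * (n + 1))) A hA (hX0.trans ?_) (hXn.trans ?_) H u (none, none) ?_ hcard (U ∪ J) hU ?_
  · exact Nat.le_self_pow (by positivity) X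
  · exact Nat.le_self_pow (by positivity) X
  · show ρ (ω none) * y none = 1
    simp [ω, y]
  intro j hjA hjU
  have hj : j ∈ B := by rw [hB, mem_sdiff]; exact ⟨hjA, hjU⟩
  let b : B := ⟨j, hj⟩
  obtain ⟨Q, hQ⟩ : ∃ Q : ℕ, Q = ∏ o, q (b, o) := ⟨_, rfl⟩
  let R : Option (J ⊕ Fin v) → ℕ := fun o => ∏ o' ∈ univ.erase o, q (b, o')
  have hR : ∀ o, q (b, o) * R o = Q := by
    intro o
    rw [hQ]
    exact mul_prod_erase univ (fun o => q (b, o)) (mem_univ o)
  have hQ1 : 1 ≤ Q := by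
    rw [hQ]
    exact Nat.one_le_iff_ne_zero.2 (prod_ne_zero_iff.2 fun o _ => Nat.one_le_iff_ne_zero.1 (hq1 (b, o)))
  have hQX : (Q : ℝ) ≤ (X : ℝ) ^ ((d + 2) * n) := by
    rw [hQ]
    push_cast
    calc ∏ o, (q (b, o) : ℝ) ≤ ∏ o : Option (J ⊕ Fin v), (X : ℝ) ^ ((d + 2) * d) :=
          prod_le_prod (fun _ _ => by positivity) fun o _ => hqX _
      _ = ((X : ℝ) ^ ((d + 2) * d)) ^ Fintype.card (Option (J ⊕ Fin v)) := by rw [prod_const, card_univ]
      _ ≤ ((X : ℝ) ^ ((d + 2) * d)) ^ (v + S) := pow_le_pow_right₀ (one_le_pow₀ hX1) hO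
      _ = (X : ℝ) ^ ((d + 2) * n) := by
          rw [← pow_mul, hn]
          congr 1
          ring
  let e' : Option (Fin m) × Option (J ⊕ Fin v) → ℤ := fun x => (R x.2 : ℤ) * (match x.1 with
    | none => p0 (b, x.2)
    | some k => p (b, x.2) k)
  refine ⟨Q * N j, e', mul_ne_zero (by exact_mod_cast (by omega : Q ≠ 0)) (hN j hj), ?_, ?_, ?_⟩
  · -- the size of the first coefficient
    have h1 : |((Q * N j : ℤ) : ℝ)| ≤ (X : ℝ) ^ ((d + 2) * (n + 1)) := by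
      push_cast
      rw [abs_mul, abs_of_nonneg (by positivity : (0 : ℝ) ≤ Q)]
      calc (Q : ℝ) * |(N j : ℝ)| ≤ (X : ℝ) ^ ((d + 2) * n) * (X : ℝ) ^ d :=
            mul_le_mul hQX (hNb j hj) (abs_nonneg _) (by positivity)
        _ = (X : ℝ) ^ ((d + 2) * n + d) := by rw [← pow_add]
        _ ≤ (X : ℝ) ^ ((d + 2) * (n + 1)) := pow_le_pow_right₀ hX1 (by nlinarith)
    rw [← Int.cast_abs] at h1
    exact_mod_cast h1
  · -- the size of the other coefficients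
    intro x
    have h0 : |(e' x : ℝ)| ≤ (Q : ℝ) * (d * (X : ℝ) ^ (d + 1)) := by
      have h2 : |((match x.1 with
        | none => p0 (b, x.2)
        | some k => p (b, x.2) k : ℤ) : ℝ)| ≤ d * (X : ℝ) ^ (d + 1) * q (b, x.2) := by
        rcases x with ⟨_ | k, o⟩
        · exact hp0b _
        · refine (hpb (b, o) k).trans ?_
          have : (0 : ℝ) ≤ q (b, o) := by positivity
          show (q (b, o) : ℝ) ≤ d * (X : ℝ) ^ (d + 1) * q (b, o)
          nlinarith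
      have h3 : (e' x : ℝ) = (R x.2 : ℝ) * ((match x.1 with
        | none => p0 (b, x.2)
        | some k => p (b, x.2) k : ℤ) : ℝ) := by
        simp only [e']
        push_cast
        rfl
      rw [h3, abs_mul, abs_of_nonneg (by positivity : (0 : ℝ) ≤ R x.2)]
      calc (R x.2 : ℝ) * |((match x.1 with
        | none => p0 (b, x.2)
        | some k => p (b, x.2) k : ℤ) : ℝ)| ≤ (R x.2 : ℝ) * (d * (X : ℝ) ^ (d + 1) * q (b, x.2)) :=
            mul_le_mul_of_nonneg_left h2 (by positivity)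
        _ = ((q (b, x.2) * R x.2 : ℕ) : ℝ) * (d * (X : ℝ) ^ (d + 1)) := by push_cast; ring
        _ = (Q : ℝ) * (d * (X : ℝ) ^ (d + 1)) := by rw [hR]
    have h1 : |(e' x : ℝ)| ≤ (X : ℝ) ^ ((d + 2) * (n + 1)) := by
      refine h0.trans ?_
      calc (Q : ℝ) * (d * (X : ℝ) ^ (d + 1)) ≤ (X : ℝ) ^ ((d + 2) * n) * (X : ℝ) ^ (d + 2) :=
            mul_le_mul hQX (by linarith) (by positivity) (by positivity)
        _ = (X : ℝ) ^ ((d + 2) * (n + 1)) := by
            rw [← pow_add]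
            congr 1
    rw [← Int.cast_abs] at h1
    exact_mod_cast h1
  · -- the linear form
    have e1 : ((Q * N j : ℤ) : ℝ) * z j + ∑ x, (e' x : ℝ) * u x =
        Q * (ρ (c j) * (ρ (a j j) * z j + (∑ i ∈ J, ρ (a j i) * z i + ∑ l, ρ (e j l) * t l + ρ (e0 j)))) := by
      have e2 : ∑ x, (e' x : ℝ) * u x = ∑ o, (Q : ℝ) * (ρ (g j o) * y o) := by
        rw [Fintype.sum_prod_type_right]
        refine sum_congr rfl fun o _ => ?_
        have e3 : (q (b, o) : ℝ) * ρ (g j o) = p0 (b, o) + ∑ k, (p (b, o) k : ℝ) * ρ (g (f k).1 (f k).2) := by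
          have := congrArg ρ (hqe (b, o))
          simpa [map_mul, map_add, map_sum, map_natCast, map_intCast] using this
        rw [Fintype.sum_option]
        have e4 : (Q : ℝ) = (q (b, o) : ℝ) * R o := by rw [← hR o]; push_cast; ring
        rw [e4]
        have e5 : (q (b, o) : ℝ) * R o * (ρ (g j o) * y o) = R o * ((q (b, o) : ℝ) * ρ (g j o)) * y o := by ring
        rw [e5, e3, mul_add, add_mul, mul_sum, sum_mul]
        simp only [e', u, ω]
        push_cast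
        congr 1
        · simp
        · exact sum_congr rfl fun k _ => by ring
      have e6 : ∑ o, (Q : ℝ) * (ρ (g j o) * y o) =
          Q * (ρ (c j) * (∑ i ∈ J, ρ (a j i) * z i + ∑ l, ρ (e j l) * t l + ρ (e0 j))) := by
        rw [← mul_sum, Fintype.sum_option, Fintype.sum_sum_type, ← Finset.sum_coe_sort J]
        simp only [g, y, map_mul]
        rw [mul_add (ρ (c j)), mul_add (ρ (c j)), mul_sum, mul_sum]
        congr 1
        rw [add_comm]
        congr 1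
        · congr 1
          · exact sum_congr rfl fun i _ => by ring
          · exact sum_congr rfl fun i _ => by ring
        · ring
      have e7 : ((N j : ℤ) : ℝ) = ρ (c j) * ρ (a j j) := by
        rw [← map_mul, hcN j hj, map_intCast]
      rw [e2, e6]
      push_cast
      rw [e7]
      ring
    rw [e1, abs_mul, abs_mul, abs_of_nonneg (by positivity : (0 : ℝ) ≤ Q)]
    have hcb : |ρ (c j)| ≤ (X : ℝ) ^ d := by
      have := (hcs j hj).2 (Complex.ofRealHom.comp ρ)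
      simpa using this
    have hQ0 : (0 : ℝ) < Q := by exact_mod_cast hQ1
    calc (Q : ℝ) * (|ρ (c j)| * |ρ (a j j) * z j + (∑ i ∈ J, ρ (a j i) * z i + ∑ l, ρ (e j l) * t l + ρ (e0 j))|)
        ≤ (Q : ℝ) * ((X : ℝ) ^ d * |ρ (a j j) * z j + (∑ i ∈ J, ρ (a j i) * z i + ∑ l, ρ (e j l) * t l + ρ (e0 j))|) :=
          mul_le_mul_of_nonneg_left (mul_le_mul_of_nonneg_right hcb (abs_nonneg _)) hQ0.le
      _ < (Q : ℝ) * ((X : ℝ) ^ d * (1 / (X : ℝ) ^ w)) :=
          mul_lt_mul_of_pos_left (mul_lt_mul_of_pos_left (hf j hj) (by positivity)) hQ0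
      _ ≤ (X : ℝ) ^ ((d + 2) * n) * ((X : ℝ) ^ d * (1 / (X : ℝ) ^ w)) :=
          mul_le_mul_of_nonneg_right hQX (by positivity)
      _ ≤ 1 / ((X ^ ((d + 2) * (n + 1)) : ℕ) : ℝ) ^ (s * (n + 1) ^ 2) := by
          push_cast
          rw [← mul_assoc, mul_one_div, div_le_div_iff₀ (by positivity) (by positivity), ← pow_mul, ← pow_add,
            ← pow_add, one_mul]
          apply pow_le_pow_right₀ hX1
          rw [hw]
          have := expo hdn (le_trans hd1 hdn) hs6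
          nlinarith

end Pool.Agent.K1H98.NF
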